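import Pool.Agent.H41.HYP.S3

/-!
# HYP: the classes of the twist at a prime where the twist is unramified
-/

set_option autoImplicit false

namespace Pool.HYP

open Polynomial Matrix Pool.AVS

namespace Lda24

section Scale

variable {L : Type} [Field L]

theorem scale_comp (f : L[X]) (d : L) :
    (f.scaleRoots d).comp (C d * X) = C (d ^ f.natDegree) * f := by
  ext i
  rw [comp_C_mul_X_coeff, coeff_scaleRoots, coeff_C_mul]
  rcases le_or_gt i f.natDegree with hi | hi
  · rw [mul_assoc, ← pow_add, Nat.sub_add_cancel hi, mul_comm]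
  · rw [coeff_eq_zero_of_natDegree_lt hi]
    ring

theorem nat_comp (u : L[X]) {d : L} (hd : d ≠ 0) :
    (u.comp (C d * X)).natDegree = u.natDegree := by
  rw [natDegree_comp, natDegree_C_mul_X d hd, mul_one]

theorem monic_comp {u : L[X]} (hu : u.Monic) {d : L} (hd : d ≠ 0) :
    (C ((d ^ u.natDegree)⁻¹) * u.comp (C d * X)).Monic := by
  refine monic_C_mul_of_mul_leadingCoeff_eq_one ?_
  rw [leadingCoeff_comp (by rw [natDegree_C_mul_X d hd]; exact one_ne_zero), hu.leadingCoeff,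
    leadingCoeff_C_mul_X, one_mul, inv_mul_cancel₀ (pow_ne_zero _ hd)]

theorem ui_pow {O : ValuationSubring L} {x : L} (h : UI (O : Set L) x) (m : ℕ) :
    UI (O : Set L) (x ^ m) := by
  refine ⟨pow_ne_zero _ h.1, O.toSubring.pow_mem h.2.1 m, ?_⟩
  rw [← inv_pow]
  exact O.toSubring.pow_mem h.2.2 m

theorem ui_neg {O : ValuationSubring L} {x : L} (h : UI (O : Set L) x) :
    UI (O : Set L) (-x) := by
  refine ⟨neg_ne_zero.2 h.1, O.toSubring.neg_mem h.2.1, ?_⟩
  rw [inv_neg]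
  exact O.toSubring.neg_mem h.2.2

end Scale

section Places

variable {F : Type} [Field F]

theorem mem_div (P : F[X]) {a b : F[X]} (hb : ¬ P ∣ b) : rf a / rf b ∈ IP P := by
  show ¬ P ∣ _
  intro h
  exact hb (h.trans (RatFunc.denom_div_dvd a b))

theorem ui_rf {P : F[X]} (hP : Irreducible P) {L : Type} [Field L] {O : ValuationSubring L}
    {ι : RatFunc F →+* L} (hC : IsComp F (IP P) (rf P) L O ι) {d : F[X]} (hd : ¬ P ∣ d) :
    UI (O : Set L) (ι (rf d)) := by
  have hd0 : d ≠ 0 := fun h => hd (h ▸ dvd_zero P)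
  have h1 : ¬ P ∣ (1 : F[X]) := fun h => hP.not_isUnit (isUnit_of_dvd_one h)
  refine ⟨?_, ?_, ?_⟩
  · intro h
    have h2 : rf d = 0 := by
      rwa [map_eq_zero] at h
    exact hd0 (by simpa using h2)
  · refine (hC.mem _).2 ?_
    have := mem_div P (a := d) h1
    simpa using this
  · rw [← map_inv₀]
    refine (hC.mem _).2 ?_
    have := mem_div P (a := 1) hd
    simpa using this

theorem fK_scale (f : F[X][X]) (hf : f.Monic) (d : F[X]) {L : Type} [Field L]
    (ι : RatFunc F →+* L) :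
    (fK (f.scaleRoots d)).map ι = ((fK f).map ι).scaleRoots (ι (rf d)) := by
  have h1 : fK (f.scaleRoots d) = (fK f).scaleRoots (rf d) := by
    refine map_scaleRoots f d _ ?_
    rw [hf.leadingCoeff, map_one]
    exact one_ne_zero
  rw [h1]
  refine map_scaleRoots _ _ _ ?_
  rw [(hf.map _).leadingCoeff, map_one]
  exact one_ne_zero

end Places

end Lda24

open Lda24

/-- **LDA**. -/
theorem lda (hE : EVNStmt) (hI : INOStmt) (hN : NMUStmt) : LDAStmt := by
  intro F _ _ h2 g P hP hPi L _ O ι hC f d α hf hfd hS hd hα hn hL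
  obtain ⟨fO, h3, h4, h5, h6, -, h7, -⟩ := hI F P hP hPi L O ι hC f hf
  obtain ⟨u, w, s, hu, hc, hw, hs⟩ := hL
  have hU : UI (O : Set L) (ι (rf d)) := ui_rf hPi hC hd
  rw [fK_scale f hf d ι, ← h5] at hc hw
  rw [← h5] at hs
  generalize ι (rf d) = D at hU hc hw hs
  have hD0 : D ≠ 0 := hU.1
  have hdeg : (oL O fO).natDegree = 2 * g + 1 := by
    rw [h3.natDegree_map, h4, hfd]
  have hcm : IsCoprime (u.comp (C D * X)) (oL O fO) := by
    obtain ⟨a, b, hab⟩ := hc
    refine ⟨a.comp (C D * X), b.comp (C D * X) * C (D ^ (2 * g + 1)), ?_⟩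
    have := congrArg (fun p => p.comp (C D * X)) hab
    simp only [add_comp, mul_comp, one_comp, scale_comp, hdeg] at this
    rw [mul_assoc]
    exact this
  rw [← h7 α hα]
  refine hE L O (ι (rf P)) hC.loc ⟨ι (rf P), hC.loc.pi_mem⟩ fO
    (C ((D ^ u.natDegree)⁻¹) * u.comp (C D * X)) (C ((D ^ g)⁻¹) * w.comp (C D * X)) s (α.map ι)
    D ((-D) ^ u.natDegree) rfl h3 ⟨g, by rw [h4, hfd]⟩
    (fun γ hγ hγi hin => hS (h6 _ rfl γ hγ hγi hin)) (monic_comp hu hD0) ?_ hU
    (ui_pow (ui_neg hU) _) ?_ ?_ ?_ ?_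
  · refine IsCoprime.mul_left ?_ hcm
    refine ⟨C (D ^ u.natDegree), 0, ?_⟩
    rw [← C_mul, mul_inv_cancel₀ (pow_ne_zero _ hD0), C_1, zero_mul, add_zero]
  · obtain ⟨q, hq⟩ := hw
    refine ⟨C (D ^ u.natDegree * ((D ^ g)⁻¹) ^ 2) * q.comp (C D * X), ?_⟩
    have h8 := congrArg (fun p => p.comp (C D * X)) hq
    simp only [sub_comp, pow_comp, mul_comp, scale_comp, hdeg] at h8
    have e1 : (C ((D ^ g)⁻¹) : L[X]) ^ 2 * C (D ^ (2 * g + 1)) = C D := by
      rw [← C_pow, ← C_mul]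
      congr 1
      field_simp
      ring
    have e2 : (C ((D ^ u.natDegree)⁻¹) : L[X]) * C (D ^ u.natDegree * ((D ^ g)⁻¹) ^ 2) =
        C ((D ^ g)⁻¹) ^ 2 := by
      rw [← C_pow, ← C_mul]
      congr 1
      field_simp
    calc (C ((D ^ g)⁻¹) * w.comp (C D * X)) ^ 2 - C D * oL O fO
        = C ((D ^ g)⁻¹) ^ 2 * (w.comp (C D * X) ^ 2 - C (D ^ (2 * g + 1)) * oL O fO) := by
          rw [← e1]
          ring
      _ = (C ((D ^ u.natDegree)⁻¹) * C (D ^ u.natDegree * ((D ^ g)⁻¹) ^ 2)) *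
          (u.comp (C D * X) * q.comp (C D * X)) := by
          rw [h8, e2]
      _ = _ := by ring
  · have e3 : C ((-D) ^ u.natDegree) * (C ((D ^ u.natDegree)⁻¹) * u.comp (C D * X)) =
        kap (u.comp (C D * X)) := by
      unfold kap
      rw [nat_comp u hD0, ← mul_assoc, ← C_mul]
      congr 1
      rw [neg_pow, mul_assoc, mul_inv_cancel₀ (pow_ne_zero _ hD0), mul_one]
      simp
    rw [e3]
    exact hs
  · rw [h5]
    exact hα.map (mapRingHom ι)
  · rw [h5]
    unfold NSq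
    rw [hN.2.2.2 _ _ ι _ _ (hf.map _)]
    exact hn.map ι

end Pool.HYP
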