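import Pool.Agent.H41.HYP.S6

/-!
# HYP: existence of the local data
-/

set_option autoImplicit false

namespace Pool.HYP

open Polynomial Matrix Pool.AVS

namespace Exd24

/-- Irreducible polynomials of all degrees over a finite field. -/
theorem exIrr (k : Type) [Field k] [Finite k] (n : ℕ) (hn : 1 ≤ n) :
    ∃ p : k[X], p.Monic ∧ Irreducible p ∧ p.natDegree = n := by
  obtain ⟨p, hp⟩ := CharP.exists k
  have : Fact (Nat.Prime p) := ⟨CharP.char_is_prime k p⟩
  have : NeZero n := ⟨by omega⟩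
  obtain ⟨α, hα⟩ := Field.exists_primitive_element k (FiniteField.Extension k p n)
  have hi : IsIntegral k α := IsIntegral.of_finite k α
  refine ⟨minpoly k α, minpoly.monic hi, minpoly.irreducible hi, ?_⟩
  rw [(Field.primitive_element_iff_minpoly_natDegree_eq k α).1 hα,
    FiniteField.finrank_extension]

/-- A lift of an irreducible polynomial. -/
theorem exLift {F : Type} [Field F] [Finite F] (g : ℕ) (hg : 1 ≤ g) (P : F[X]) (hP : P.Monic)
    (hPi : Irreducible P) : ∃ γ : F[X][X], OkP g P γ := by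
  have : Fact (Irreducible P) := ⟨hPi⟩
  have h1 : Module.Finite F (AdjoinRoot P) := hP.finite_adjoinRoot
  have h2 : Finite (AdjoinRoot P) := Module.finite_of_finite F
  obtain ⟨p, h3, h4, h5⟩ := exIrr (AdjoinRoot P) (2 * g) (by omega)
  have h6 : p ∈ lifts (AdjoinRoot.mk P) := by
    rw [lifts_iff_coeff_lifts]
    intro i
    exact AdjoinRoot.mk_surjective _
  obtain ⟨q, h7, h8, h9⟩ := lifts_and_natDegree_eq_and_monic h6 h3
  refine ⟨q, hP, hPi, h9, by rw [h8, h5], ?_⟩
  rw [h7]
  exact h4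

end Exd24

open Exd24 in
/-- **EXD**. -/
theorem exd : EXDStmt := by
  classical
  intro F _ _ g k hg
  have h1 : ∀ n : ℕ, ∃ p : F[X], 1 ≤ n → p.Monic ∧ Irreducible p ∧ p.natDegree = n := by
    intro n
    by_cases hn : 1 ≤ n
    · obtain ⟨p, hp⟩ := exIrr F n hn
      exact ⟨p, fun _ => hp⟩
    · exact ⟨0, fun h => absurd h hn⟩
  choose p hp using h1
  have h2 : ∀ P : F[X], ∃ γ : F[X][X], P.Monic → Irreducible P → OkP g P γ := by
    intro P
    by_cases hP : P.Monic ∧ Irreducible P
    · obtain ⟨γ, hγ⟩ := exLift g hg P hP.1 hP.2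
      exact ⟨γ, fun _ _ => hγ⟩
    · exact ⟨0, fun h h' => absurd ⟨h, h'⟩ hP⟩
  choose γ hγ using h2
  obtain ⟨top, h3, h4, h5⟩ := exIrr F (2 * g + 1) (by omega)
  let E : ℕ := 2 * (2 * g + 1) * k + 1
  have hinj : Function.Injective fun j : ℕ => p (E + j) := by
    intro i j hij
    have h6 := congrArg Polynomial.natDegree hij
    simp only [(hp (E + i) (by omega)).2.2, (hp (E + j) (by omega)).2.2] at h6
    omega
  have hT : ∀ P ∈ (Finset.range k).image fun j : ℕ => p (E + j),
      P.Monic ∧ Irreducible P ∧ E ≤ P.natDegree := by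
    intro P hP
    obtain ⟨j, -, rfl⟩ := Finset.mem_image.1 hP
    obtain ⟨h6, h7, h8⟩ := hp (E + j) (by omega)
    exact ⟨h6, h7, by omega⟩
  have hcard : ((Finset.range k).image fun j : ℕ => p (E + j)).card = k := by
    rw [Finset.card_image_of_injective _ hinj, Finset.card_range]
  refine ⟨⟨(Finset.range k).image fun j : ℕ => p (E + j), fun _ => 0, γ, top⟩,
    ⟨fun P hP => hγ P (hT P hP).1 (hT P hP).2.1, h3, h5, h4⟩, hcard, fun P hP => ?_⟩
  have h6 := (hT P hP).2.2
  have h7 : 2 ≤ Nat.card F := Finite.one_lt_card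
  change 2 * (2 * g + 1) * ((Finset.range k).image fun j : ℕ => p (E + j)).card ≤ _
  rw [hcard]
  calc 2 * (2 * g + 1) * k ≤ P.natDegree := by omega
    _ ≤ 2 ^ P.natDegree := Nat.lt_two_pow_self.le
    _ ≤ Nat.card F ^ P.natDegree := Nat.pow_le_pow_left h7 _

end Pool.HYP
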